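import Pool.Agent.MP_52bf41_ag.H65.Span

/-! The standard atlas from functions with simple poles. -/

open AlgebraicGeometry CategoryTheory Limits IsLocalRing Polynomial

namespace Pool.Agent.MP_52bf41_ag.H65

open H12

section Alg

variable {A R R' : Type} [CommRing A] [CommRing R] [CommRing R'] {D : ℕ}

theorem eval_split (φ : A →+* R) (s : R) (g : A[X]) :
    g.eval₂ φ s = φ (g.coeff 0) + s * g.divX.eval₂ φ s := by
  conv_lhs => rw [← X_mul_divX_add g]
  rw [eval₂_add, eval₂_mul, eval₂_X, eval₂_C, add_comm]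

theorem gpol_unit {q : Fin D → A} (hq : Good q) (t : Fin D → A) (a : Option (Fin D)) :
    IsUnit ((gpol q t a).coeff 0) := by
  rw [coeff_zero_eq_eval_zero]
  cases a with
  | none => simp [gpol, eval_prod]
  | some i =>
    simp only [gpol, eval_prod, eval_add, eval_C, eval_mul, eval_X, mul_zero, add_zero]
    exact IsUnit.prod_iff.mpr fun l hl => hq.1 i l (Finset.ne_of_mem_erase hl).symm

theorem pres_rel {φ : A →+* R} {u : Option (Fin D) → R} {q t : Fin D → A} (h : Pres φ u q t)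
    (i : Fin D) : (u none - φ (q i)) * u (some i) = φ (t i) := by
  have := (h.2 (rel q t i)).mpr (Ideal.subset_span ⟨i, rfl⟩)
  simp only [rel, MvPolynomial.coe_eval₂Hom, MvPolynomial.eval₂_sub, MvPolynomial.eval₂_mul,
    MvPolynomial.eval₂_X, MvPolynomial.eval₂_C] at this
  exact sub_eq_zero.mp this

theorem eval_gpol_none (φ : A →+* R) (q t : Fin D → A) (s : R) :
    (gpol q t none).eval₂ φ s = ∏ i, (1 - φ (q i) * s) := by
  simp [gpol, eval₂_finsetProd]

theorem eval_gpol_some (φ : A →+* R) (q t : Fin D → A) (i : Fin D) (s : R) :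
    (gpol q t (some i)).eval₂ φ s =
      ∏ l ∈ Finset.univ.erase i, (φ (q i) - φ (q l) + φ (t i) * s) := by
  simp [gpol, eval₂_finsetProd]

theorem hpol_dvd (φ : A →+* R) (u : Option (Fin D) → R) (q : Fin D → A) (a : Option (Fin D)) :
    u a ∣ MvPolynomial.eval₂Hom φ u (hpol q a) := by
  cases a <;> simp [hpol]

theorem hpol_eq (φ : A →+* R) (u : Option (Fin D) → R) (q t : Fin D → A)
    (h : ∀ i, (u none - φ (q i)) * u (some i) = φ (t i)) (a : Option (Fin D)) {s : R}
    (hs : u a * s = 1) :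
    ∃ k : ℕ, MvPolynomial.eval₂Hom φ u (hpol q a) = u a ^ k * (gpol q t a).eval₂ φ s := by
  cases a with
  | none =>
    refine ⟨D + 1, ?_⟩
    have e : ∀ i, u none - φ (q i) = u none * (1 - φ (q i) * s) := fun i => by
      linear_combination φ (q i) * hs
    simp only [hpol, map_mul, map_prod, map_sub, MvPolynomial.eval₂Hom_X', MvPolynomial.eval₂Hom_C,
      eval_gpol_none, e, Finset.prod_mul_distrib, Finset.prod_const, Finset.card_univ,
      Fintype.card_fin]
    ring
  | some i =>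
    refine ⟨1, ?_⟩
    have e : ∀ l, u none - φ (q l) = φ (q i) - φ (q l) + φ (t i) * s := fun l => by
      linear_combination s * h i - (u none - φ (q i)) * hs
    simp only [hpol, map_mul, map_prod, map_sub, MvPolynomial.eval₂Hom_X', MvPolynomial.eval₂Hom_C,
      eval_gpol_some, e, pow_one]

/-- Descent of the localisation from the punctured chart. -/
theorem away_descend (φ : A →+* R) (ρ : R →+* R') {s : R} {g : A[X]}
    (hρ : Function.Injective ρ) (hs : s ∈ nonZeroDivisors R)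
    (hinj : ∀ (c : A) (r : R), φ c = s * r → c = 0) (hg : IsUnit (g.eval₂ φ s))
    (h : IsAway (eval₂RingHom (ρ.comp φ) (ρ s)) (X * g)) : IsAway (eval₂RingHom φ s) g := by
  have hc : ∀ f : A[X], eval₂RingHom (ρ.comp φ) (ρ s) f = ρ (f.eval₂ φ s) := fun f =>
    (hom_eval₂ f φ ρ s).symm
  have key : ∀ (n : ℕ) (b : R) (f : A[X]), b * s ^ n = f.eval₂ φ s →
      ∃ f' : A[X], b = f'.eval₂ φ s := by
    intro n
    induction n with
    | zero => exact fun b f e => ⟨f, by simpa using e⟩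
    | succ n ih =>
      intro b f e
      rw [eval_split] at e
      have e0 := hinj (f.coeff 0) (b * s ^ n - f.divX.eval₂ φ s) (by linear_combination -e)
      rw [e0, map_zero, zero_add] at e
      refine ih b f.divX ((mul_cancel_left_mem_nonZeroDivisors hs).mp ?_)
      linear_combination e
  refine away_mk hg (fun b => ?_) fun a b e => ?_
  · obtain ⟨n, f, e⟩ := away_surj h (ρ b)
    rw [hc, hc, ← map_pow, ← map_mul, eval₂_mul, eval₂_X] at e
    obtain ⟨f', e'⟩ := key n (b * g.eval₂ φ s ^ n) f (by rw [← hρ e]; ring)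
    exact ⟨n, f', e'⟩
  · obtain ⟨n, hn⟩ := away_eq h (a := a) (b := b) (by rw [hc, hc]; exact congrArg ρ e)
    refine ⟨n, (isRegular_X_pow n).left ?_⟩
    simp only
    linear_combination hn

end Alg

section Inv

variable {A : Type} [CommRing A] {C : Scheme.{0}} {p : C ⟶ Spec (.of A)} {ι : Type}

theorem mem_basicOpen_of_dvd {U : C.Opens} {b b' : Γ(C, U)} (h : b ∣ b') {y : C}
    (hy : y ∈ C.basicOpen b') : y ∈ C.basicOpen b := by
  obtain ⟨r, rfl⟩ := h
  exact (mem_basicOpen_mul.mp hy).1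

/-- The inverse `s'` of `u a`, extended over the pole. -/
structure Inv (P : Poles p ι) (a : ι) where
  Y : C.Opens
  s : Γ(C, Y)
  le : C.basicOpen (P.u a) ≤ Y
  le' : C.basicOpen (P.v a) ≤ Y
  us : ∀ {W : C.Opens} (h1 : W ≤ P.V a) (h2 : W ≤ Y), res h1 (P.u a) * res h2 s = 1
  sv : ∀ {W : C.Opens} (h1 : W ≤ P.U a) (h2 : W ≤ Y), W ≤ C.basicOpen (P.v a) →
    res h2 s * res h1 (P.v a) = res h1 (P.s a)

theorem exists_inv (P : Poles p ι) (a : ι) : Nonempty (Inv P a) := by
  obtain ⟨u', hu'⟩ := (isUnit_of_le_basicOpen (C.basicOpen_le _) (P.u a) le_rfl).exists_right_inv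
  obtain ⟨v', hv'⟩ := (isUnit_of_le_basicOpen (C.basicOpen_le _) (P.v a) le_rfl).exists_right_inv
  have hu : ∀ {W : C.Opens} (h : W ≤ C.basicOpen (P.u a)),
      res (h.trans (C.basicOpen_le _)) (P.u a) * res h u' = 1 := fun h => by
    simpa only [map_mul, res_res, map_one] using congrArg (res h) hu'
  have hv : ∀ {W : C.Opens} (h : W ≤ C.basicOpen (P.v a)),
      res (h.trans (C.basicOpen_le _)) (P.v a) * res h v' = 1 := fun h => by
    simpa only [map_mul, res_res, map_one] using congrArg (res h) hv'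
  obtain ⟨s', h1, h2⟩ := exists_glue₂ (V := C.basicOpen (P.u a) ⊔ C.basicOpen (P.v a))
    le_sup_left le_sup_right le_rfl u' (res (C.basicOpen_le _) (P.s a) * v') (by
      have e1 := hu (inf_le_left : _ ⊓ C.basicOpen (P.v a) ≤ _)
      have e2 := hv (inf_le_right : C.basicOpen (P.u a) ⊓ _ ≤ _)
      have e3 := pole_res P a
        ((inf_le_right : C.basicOpen (P.u a) ⊓ _ ≤ _).trans (C.basicOpen_le (P.v a)))
        (inf_le_left.trans (C.basicOpen_le _))
      rw [map_mul, res_res]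
      rw [← e3] at e2
      linear_combination (-res inf_le_left u') * e2
        + (res _ (P.s a) * res inf_le_right v') * e1)
  have hsv : ∀ {W : C.Opens} (h1 : W ≤ P.U a)
      (h2 : W ≤ C.basicOpen (P.u a) ⊔ C.basicOpen (P.v a)), W ≤ C.basicOpen (P.v a) →
      res h2 s' * res h1 (P.v a) = res h1 (P.s a) := fun k1 k2 h => by
    have e1 := congrArg (res h) h2
    rw [res_res, map_mul, res_res] at e1
    rw [e1]
    linear_combination res k1 (P.s a) * hv h
  refine ⟨⟨_, s', le_sup_left, le_sup_right, fun {W} k1 k2 => ?_, hsv⟩⟩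
  refine eq_of_local fun y hy => ?_
  rcases k2 hy with hy' | hy'
  · refine ⟨W ⊓ C.basicOpen (P.u a), inf_le_left, ⟨hy, hy'⟩, ?_⟩
    have e1 := congrArg (res (inf_le_right : W ⊓ _ ≤ _)) h1
    rw [res_res] at e1
    rw [map_mul, res_res, res_res, map_one, e1]
    exact hu inf_le_right
  · refine ⟨W ⊓ C.basicOpen (P.v a), inf_le_left, ⟨hy, hy'⟩, ?_⟩
    have k3 : W ⊓ C.basicOpen (P.v a) ≤ P.U a := inf_le_right.trans (C.basicOpen_le _)
    have e1 := hsv k3 (inf_le_left.trans k2) inf_le_right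
    have e2 := pole_res P a k3 (inf_le_left.trans k1)
    rw [map_mul, res_res, res_res, map_one]
    refine (isUnit_of_le_basicOpen k3 (P.v a) inf_le_right).mul_right_cancel ?_
    rw [mul_assoc, e1, e2, one_mul]

variable {P : Poles p ι} {a : ι} (I : Inv P a)

theorem Inv.mem : P.x a ∈ I.Y := I.le' (P.unit a)

theorem Inv.not_mem : P.x a ∉ C.basicOpen I.s := fun hx => by
  have e := I.sv (C.basicOpen_le (P.v a)) I.le' le_rfl
  have h1 : P.x a ∈ C.basicOpen (res I.le' I.s * res (C.basicOpen_le (P.v a)) (P.v a)) :=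
    mem_basicOpen_mul.mpr ⟨(mem_basicOpen_res _ _ (P.unit a)).mpr hx,
      (mem_basicOpen_res _ _ (P.unit a)).mpr (P.unit a)⟩
  rw [e, mem_basicOpen_res _ _ (P.unit a)] at h1
  exact par_not_mem (P.par a) h1

theorem Inv.mem_units {y : C} (h1 : y ∈ I.Y) (h2 : y ≠ P.x a) :
    y ∈ C.basicOpen (P.u a) ∧ y ∈ C.basicOpen I.s := by
  have hy : y ∈ P.V a ⊓ I.Y := ⟨(P.hV a y).mpr h2, h1⟩
  have e := I.us (inf_le_left : P.V a ⊓ I.Y ≤ _) inf_le_right
  have h3 : y ∈ C.basicOpen (res (inf_le_left : P.V a ⊓ I.Y ≤ _) (P.u a) * res inf_le_right I.s) := by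
    rw [e, basicOpen_of_isUnit isUnit_one]
    exact hy
  rwa [mem_basicOpen_mul, mem_basicOpen_res _ _ hy, mem_basicOpen_res _ _ hy] at h3

/-- A basic open neighbourhood of the pole on which `s'` is a local parameter. -/
theorem Inv.exists_nbhd {O : C.Opens} (hx : P.x a ∈ O) :
    ∃ f : Γ(C, P.U a), P.x a ∈ C.basicOpen f ∧ C.basicOpen f ≤ O ∧
      C.basicOpen f ≤ C.basicOpen (P.v a) := by
  obtain ⟨f, h1, h2⟩ := (P.par a).aff.exists_basicOpen_le
    (V := O ⊓ C.basicOpen (P.v a)) ⟨P.x a, hx, P.unit a⟩ (P.par a).mem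
  exact ⟨f, h2, h1.trans inf_le_left, h1.trans inf_le_right⟩

theorem Inv.reg {O : C.Opens} (hO : O ≤ I.Y) (hx : P.x a ∈ O) :
    res hO I.s ∈ nonZeroDivisors Γ(C, O) := by
  refine mem_nonZeroDivisors_iff_left.mpr fun r hr => eq_of_local fun y hy => ?_
  by_cases e : y = P.x a
  · obtain ⟨f, h1, h2, h3⟩ := Inv.exists_nbhd (P := P) hx
    refine ⟨_, h2, e ▸ h1, ?_⟩
    have e1 := I.sv (C.basicOpen_le f) (h2.trans hO) h3
    have e2 := congrArg (res h2) hr
    rw [map_mul, res_res, map_zero] at e2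
    have e3 := away_reg (isAway_res (P.par a).aff f (C.basicOpen_le f) rfl) (P.par a).reg
    rw [map_zero]
    refine mem_nonZeroDivisors_iff_left.mp e3 _ ?_
    rw [← e1]
    linear_combination res (C.basicOpen_le f) (P.v a) * e2
  · refine ⟨O ⊓ P.V a, inf_le_left, ⟨hy, (P.hV a y).mpr e⟩, ?_⟩
    have e1 := I.us (inf_le_right : O ⊓ P.V a ≤ _) (inf_le_left.trans hO)
    have e2 := congrArg (res (inf_le_left : O ⊓ P.V a ≤ _)) hr
    rw [map_mul, res_res, map_zero] at e2
    rw [map_zero]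
    linear_combination res inf_le_right (P.u a) * e2 - res inf_le_left r * e1

theorem Inv.inj [IsLocalRing A] [IsArtinianRing A] {O : C.Opens} (hO : O ≤ I.Y) (hx : P.x a ∈ O)
    (c : A) (r : Γ(C, O)) (h : alg p O c = res hO I.s * r) : c = 0 := by
  obtain ⟨f, h1, h2, h3⟩ := Inv.exists_nbhd (P := P) hx
  have hf := isAway_res (P.par a).aff f (C.basicOpen_le f) rfl
  have e1 := I.sv (C.basicOpen_le f) (h2.trans hO) h3
  have e2 := congrArg (res h2) h
  rw [map_mul, res_res, res_alg] at e2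
  obtain ⟨n, r', hr'⟩ := away_surj hf (res h2 r)
  obtain ⟨m, hm⟩ := away_eq hf (a := alg p _ c * P.v a * f ^ n) (b := P.s a * r') (by
    rw [map_mul, map_mul, map_mul, map_pow, res_alg, e2, ← hr', ← e1]
    ring)
  have hx' : P.x a ∈ C.basicOpen (P.v a * f ^ (m + n + 1)) :=
    mem_basicOpen_mul.mpr ⟨P.unit a, by rwa [C.basicOpen_pow f (Nat.succ_pos _)]⟩
  obtain ⟨c₀, r₀, hc, e3⟩ := par_unit (P.par a) hx'
  have e4 := par_inj (P.par a) (c * c₀) (f ^ (m + 1) * r' - alg p _ c * r₀) (by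
    rw [map_mul]
    linear_combination f * hm - alg p _ c * e3)
  exact hc.mul_left_eq_zero.mp e4

/-- The chart around the pole. -/
noncomputable def Inv.O (g : A[X]) : C.Opens := C.basicOpen (g.eval₂ (alg p I.Y) I.s)

theorem Inv.O_le (g : A[X]) : I.O g ≤ I.Y := C.basicOpen_le _

theorem Inv.res_eval (g : A[X]) {W : C.Opens} (h : W ≤ I.Y) :
    res h (g.eval₂ (alg p I.Y) I.s) = g.eval₂ (alg p W) (res h I.s) := by
  rw [hom_eval₂, res_comp_alg]

theorem Inv.mem_O {g : A[X]} (hg : IsUnit (g.coeff 0)) : P.x a ∈ I.O g := by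
  by_contra hx
  have h1 : P.x a ∉ C.basicOpen (-g.divX.eval₂ (alg p I.Y) I.s * I.s) :=
    not_mem_basicOpen_mul _ I.not_mem
  have h2 := not_mem_basicOpen_add hx h1
  rw [eval_split (alg p I.Y) I.s g] at h2
  have e : alg p I.Y (g.coeff 0) + I.s * g.divX.eval₂ (alg p I.Y) I.s
      + -g.divX.eval₂ (alg p I.Y) I.s * I.s = alg p I.Y (g.coeff 0) := by ring
  rw [e, basicOpen_of_isUnit (hg.map _)] at h2
  exact h2 I.mem

end Inv

section Fin

variable {A : Type} [CommRing A] {D : ℕ} {C : Scheme.{0}} {p : C ⟶ Spec (.of A)}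
  {q t : Fin D → A} {P : Poles p (Option (Fin D))}

/-- The other poles are not in the chart around a pole. -/
theorem not_mem_O (hp : Pres (alg p P.O0) P.u0 q t)
    (hx1 : ∀ i, P.x none ∉ C.basicOpen (P.u (some i)))
    (hx2 : ∀ i, P.x (some i) ∉ C.basicOpen (P.u none - alg p _ (q i)))
    {a b : Option (Fin D)} (I : Inv P a) (hab : a ≠ b) : P.x b ∉ I.O (gpol q t a) := fun hx => by
  have hbU := (P.par b).mem
  have hne : P.x b ≠ P.x a := fun e => P.ne b a hab.symm (e ▸ hbU)
  have hY := I.O_le _ hx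
  rcases b with _ | l
  · rcases a with _ | i
    · exact hab rfl
    · exact hx1 i (I.mem_units hY hne).1
  · have hW : P.x (some l) ∈ P.U (some l) ⊓ I.Y := ⟨hbU, hY⟩
    have k0 : P.U (some l) ≤ P.V none := P.U_le (Option.some_ne_none l)
    have ka : P.U (some l) ≤ P.V a := P.U_le hab.symm
    have e1 := I.us ((inf_le_left : P.U (some l) ⊓ I.Y ≤ _).trans ka) inf_le_right
    have e2 : P.x (some l) ∈ C.basicOpen ((gpol q t a).eval₂ (alg p _)
        (res (inf_le_right : P.U (some l) ⊓ I.Y ≤ _) I.s)) := by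
      rw [← I.res_eval, mem_basicOpen_res _ _ hW]
      exact hx
    refine hx2 l ((mem_basicOpen_res ((inf_le_left : P.U (some l) ⊓ I.Y ≤ _).trans k0) _ hW).mp ?_)
    rw [map_sub, res_alg]
    rcases a with _ | i
    · rw [eval_gpol_none] at e2
      have e3 := mem_basicOpen_of_dvd (Finset.dvd_prod_of_mem _ (Finset.mem_univ l)) e2
      refine mem_basicOpen_of_dvd ⟨res inf_le_right I.s, ?_⟩ e3
      linear_combination -e1
    · rw [eval_gpol_some] at e2
      have hli : l ≠ i := fun e => hab (e ▸ rfl)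
      have e3 := mem_basicOpen_of_dvd
        (Finset.dvd_prod_of_mem _ (Finset.mem_erase.mpr ⟨hli, Finset.mem_univ l⟩)) e2
      have e4 : (res k0 (P.u none) - alg p _ (q i)) * res ka (P.u (some i)) = alg p _ (t i) := by
        refine inj_inter P (some l) ?_
        have := congrArg (res (inf_le_right : P.U (some l) ⊓ P.O0 ≤ _)) (pres_rel hp i)
        simpa only [map_mul, map_sub, res_alg, Poles.u0, res_res] using this
      have e5 := congrArg (res (inf_le_left : P.U (some l) ⊓ I.Y ≤ _)) e4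
      simp only [map_mul, map_sub, res_alg, res_res] at e5
      convert e3 using 2
      linear_combination res inf_le_right I.s * e5
        - (res (inf_le_left.trans k0) (P.u none) - alg p _ (q i)) * e1

theorem inter_s (hp : Pres (alg p P.O0) P.u0 q t)
    (hx1 : ∀ i, P.x none ∉ C.basicOpen (P.u (some i)))
    (hx2 : ∀ i, P.x (some i) ∉ C.basicOpen (P.u none - alg p _ (q i)))
    {a : Option (Fin D)} (I : Inv P a) :
    P.O0 ⊓ I.O (gpol q t a) = C.basicOpen (res (I.O_le (gpol q t a)) I.s) := by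
  rw [basicOpen_res]
  ext y
  refine ⟨fun hy => ⟨hy.2, (I.mem_units (I.O_le _ hy.2) ((P.hO0 y).mp hy.1 a)).2⟩,
    fun hy => ⟨(P.hO0 y).mpr fun b e => ?_, hy.1⟩⟩
  by_cases hab : a = b
  · subst hab
    exact I.not_mem (e ▸ hy.2)
  · exact not_mem_O hp hx1 hx2 I hab (e ▸ hy.1)

theorem inter_h (hp : Pres (alg p P.O0) P.u0 q t) {a : Option (Fin D)} (I : Inv P a) :
    P.O0 ⊓ I.O (gpol q t a) =
      C.basicOpen (MvPolynomial.eval₂Hom (alg p P.O0) P.u0 (hpol q a)) := by
  have e1 := I.us ((inf_le_left : P.O0 ⊓ I.Y ≤ _).trans (P.O0_le a)) inf_le_right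
  obtain ⟨k, hk⟩ := hpol_eq (alg p (P.O0 ⊓ I.Y)) (fun b => res inf_le_left (P.u0 b)) q t
    (fun i => by
      have := congrArg (res (inf_le_left : P.O0 ⊓ I.Y ≤ _)) (pres_rel hp i)
      simpa only [map_mul, map_sub, res_alg] using this) a (s := res inf_le_right I.s)
    (by rw [Poles.u0, res_res]; exact e1)
  have e2 : res (inf_le_left : P.O0 ⊓ I.Y ≤ _)
      (MvPolynomial.eval₂Hom (alg p P.O0) P.u0 (hpol q a)) =
      res inf_le_left (P.u0 a) ^ k * res inf_le_right ((gpol q t a).eval₂ (alg p I.Y) I.s) := by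
    rw [I.res_eval, ← hk, MvPolynomial.map_eval₂Hom, res_comp_alg]
  have hu : IsUnit (res (inf_le_left : P.O0 ⊓ I.Y ≤ _) (P.u0 a) ^ k) := by
    rw [Poles.u0, res_res]
    exact (IsUnit.of_mul_eq_one _ e1).pow k
  have e3 : ∀ y ∈ P.O0 ⊓ I.Y,
      y ∈ C.basicOpen (MvPolynomial.eval₂Hom (alg p P.O0) P.u0 (hpol q a)) ↔
        y ∈ I.O (gpol q t a) := fun y hy => by
    rw [← mem_basicOpen_res (inf_le_left : P.O0 ⊓ I.Y ≤ _) _ hy, e2, mem_basicOpen_mul,
      basicOpen_of_isUnit hu, mem_basicOpen_res _ _ hy]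
    exact and_iff_right hy
  ext y
  refine ⟨fun hy => (e3 y ⟨hy.1, I.O_le _ hy.2⟩).mpr hy.2, fun hy => ?_⟩
  have h0 : y ∈ P.O0 := C.basicOpen_le _ hy
  have h1 := mem_basicOpen_of_dvd (hpol_dvd _ _ q a) hy
  rw [Poles.u0, mem_basicOpen_res _ _ h0] at h1
  exact ⟨h0, (e3 y ⟨h0, I.le h1⟩).mp hy⟩

end Fin

theorem fin (hAff : SAff) (hLoc : SLocId) : SFin := by
  intro A _ _ _ D F _ q t P h0 h1 h2 hq hdim haff hp e0 e1 e2 hx1 hx2 hx3
  have I : ∀ a, Inv P a := fun a => (exists_inv P a).some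
  have hmem : ∀ a, P.x a ∈ (I a).O (gpol q t a) := fun a => (I a).mem_O (gpol_unit hq t a)
  have hg : ∀ a, IsUnit (res ((I a).O_le (gpol q t a))
      ((gpol q t a).eval₂ (alg F.π (I a).Y) (I a).s)) :=
    fun a => isUnit_of_le_basicOpen _ _ le_rfl
  have hO : ∀ a, IsAffineOpen ((I a).O (gpol q t a)) := fun a => by
    obtain ⟨g', hg'⟩ := (hg a).exists_right_inv
    refine hAff A F.C F.π _ Bool (fun l => Bool.rec (res ((I a).O_le _) (I a).s) g' l) hdim
      (fun Z hZ => ?_) fun y hy => ?_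
    · obtain ⟨y, hyZ, hne, hy⟩ := hx3 a Z hZ
      refine ⟨y, hyZ, fun hyO => ?_⟩
      rcases mem_cases P y with k | ⟨b, rfl⟩
      · rw [Poles.u0, mem_basicOpen_res _ _ k] at hy
        exact hy ((I a).mem_units ((I a).O_le _ hyO) hne).1
      · exact not_mem_O hp hx1 hx2 (I a) (fun e => hne (e ▸ rfl)) hyO
    · by_cases k : y ∈ (I a).Y
      · refine ⟨true, (I a).Y, _, 1, hy, by rwa [basicOpen_of_isUnit isUnit_one], ?_⟩
        have := congrArg (res (inf_le_right : (I a).Y ⊓ _ ≤ _)) hg'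
        simpa only [map_mul, res_res, map_one] using this
      · have hne : y ≠ P.x a := fun e => k (e ▸ (I a).mem)
        refine ⟨false, P.V a, P.u a, 1, fun h => k ((I a).le h), ?_, ?_⟩
        · rw [basicOpen_of_isUnit isUnit_one]
          exact (P.hV a y).mpr hne
        · rw [map_one]
          exact (congrArg _ (res_res _ _ _)).trans ((I a).us _ _)
  have hus : ∀ a, res (inf_le_left : P.O0 ⊓ (I a).O (gpol q t a) ≤ _) (P.u0 a) *
      res inf_le_right (res ((I a).O_le _) (I a).s) = 1 := fun a => by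
    rw [Poles.u0, res_res, res_res]
    exact (I a).us _ _
  have hpt : F.σ 2 (closedPoint A) = P.x none := by
    by_contra hne
    have k := ((P.par none).zero _).mpr ⟨h2 (Set.mem_univ (closedPoint A)), hne⟩
    rw [← isUnit_ev_iff (F.σ 2) h2, e2] at k
    exact not_isUnit_zero k
  have h2' : ⊤ ≤ F.σ 2 ⁻¹ᵁ (I none).O (gpol q t none) :=
    top_le_preimage _ (hpt ▸ hmem none)
  refine ⟨{
    O0 := P.O0
    O := fun a => (I a).O (gpol q t a)
    aff0 := haff
    aff := hO
    cover := ?_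
    disj := fun a b hab y hy => (P.hO0 y).mpr fun c e => ?_
    u := P.u0
    s := fun a => res ((I a).O_le _) (I a).s
    pres := hp
    loc := fun a => ?_
    inter0 := fun a => inter_h hp (I a)
    inter := fun a => inter_s hp hx1 hx2 (I a)
    us := hus
    h0 := h0
    h1 := h1
    h2 := h2'
    e0 := e0
    e1 := e1
    e2 := ?_ }⟩
  · refine top_le_iff.mp fun y _ => ?_
    rcases mem_cases P y with k | ⟨a, rfl⟩
    · exact Or.inl k
    · exact (le_sup_right : _ ≤ P.O0 ⊔ _) (TopologicalSpace.Opens.mem_iSup.mpr ⟨a, hmem a⟩)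
  · by_cases hc : a = c
    · exact not_mem_O hp hx1 hx2 (I b) (fun e' => hab (hc.trans e'.symm)) (e ▸ hy.2)
    · exact not_mem_O hp hx1 hx2 (I a) hc (e ▸ hy.1)
  · have hreg := (I a).reg ((I a).O_le (gpol q t a)) (hmem a)
    have k1 := isAway_res (hO a) _ inf_le_right (inter_s hp hx1 hx2 (I a))
    have k2 := hLoc A _ _ D _ _ q t hq hp _ a _
      (isAway_res haff _ inf_le_left (inter_h hp (I a))) (hus a)
    rw [res_comp_alg, ← res_comp_alg (inf_le_right : P.O0 ⊓ (I a).O (gpol q t a) ≤ _)] at k2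
    refine away_descend _ _ (away_inj k1 hreg) hreg ((I a).inj _ (hmem a)) ?_ k2
    rw [← (I a).res_eval]
    exact hg a
  · have k1 : ⊤ ≤ F.σ 2 ⁻¹ᵁ F.C.basicOpen (P.v none) := top_le_preimage _ (hpt ▸ P.unit none)
    have k2 := congrArg (ev (F.σ 2) k1)
      ((I none).sv (F.C.basicOpen_le (P.v none)) (I none).le' le_rfl)
    rw [map_mul, ev_res, ev_res, ev_res, e2] at k2
    have k3 : IsUnit (ev (F.σ 2) h2 (P.v none)) :=
      (isUnit_ev_iff _ _ _).mpr (hpt ▸ P.unit none)
    rw [ev_res]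
    exact k3.mul_left_eq_zero.mp k2

end Pool.Agent.MP_52bf41_ag.H65
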