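import Pool.Agent.MP_52bf41_ag.H12.Spec
import Pool.Agent.MP_52bf41_ag.H12.Thick

/-! Functions with prescribed poles along sections. -/

open AlgebraicGeometry CategoryTheory Limits IsLocalRing Polynomial

namespace Pool.Agent.MP_52bf41_ag.H65

open H12

section Alg

variable {A R R' : Type} [CommRing A] [CommRing R] [CommRing R']

theorem away_unit {ρ : R →+* R'} {g : R} (h : IsAway ρ g) : IsUnit (ρ g) := by
  let _ := ρ.toAlgebra
  have : IsLocalization.Away g R' := h
  exact IsLocalization.Away.algebraMap_isUnit g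

theorem away_surj {ρ : R →+* R'} {g : R} (h : IsAway ρ g) (b : R') :
    ∃ (n : ℕ) (a : R), b * ρ g ^ n = ρ a := by
  let _ := ρ.toAlgebra
  have : IsLocalization.Away g R' := h
  exact IsLocalization.Away.surj g b

theorem away_eq {ρ : R →+* R'} {g : R} (h : IsAway ρ g) {a b : R} (e : ρ a = ρ b) :
    ∃ n : ℕ, g ^ n * a = g ^ n * b := by
  let _ := ρ.toAlgebra
  have : IsLocalization.Away g R' := h
  exact IsLocalization.Away.exists_of_eq (S := R') g e

theorem away_mk {ρ : R →+* R'} {g : R} (h1 : IsUnit (ρ g))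
    (h2 : ∀ b, ∃ (n : ℕ) (a : R), b * ρ g ^ n = ρ a)
    (h3 : ∀ a b, ρ a = ρ b → ∃ n : ℕ, g ^ n * a = g ^ n * b) : IsAway ρ g := by
  let _ := ρ.toAlgebra
  exact IsLocalization.Away.mk g h1 h2 h3

theorem away_reg {ρ : R →+* R'} {g s : R} (h : IsAway ρ g) (hs : s ∈ nonZeroDivisors R) :
    ρ s ∈ nonZeroDivisors R' := by
  let _ := ρ.toAlgebra
  have : IsLocalization.Away g R' := h
  exact IsLocalization.nonZeroDivisors_le_comap (Submonoid.powers g) R' hs

theorem away_inj {ρ : R →+* R'} {g : R} (h : IsAway ρ g) (hg : g ∈ nonZeroDivisors R) :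
    Function.Injective ρ := fun a b e => by
  obtain ⟨n, hn⟩ := away_eq h e
  exact (mul_cancel_left_mem_nonZeroDivisors (pow_mem hg n)).mp hn

/-- Removing the polar part. -/
theorem remove_pole (φ : A →+* R) (ρ : R →+* R') {s v r₀ : R} {c₀ : A} {u : R'}
    (hsurj : ∀ b : R, ∃ (c : A) (r : R), b = φ c + s * r) (hc : IsUnit c₀)
    (hv : v = φ c₀ + s * r₀) (hu : u * ρ s = ρ v) (hs : IsUnit (ρ s)) (n : ℕ) :
    ∀ (b : R') (b' : R), b * ρ s ^ n = ρ b' →
      ∃ (Q : A[X]) (r : R), b = u * Q.eval₂ (ρ.comp φ) u + ρ r := by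
  induction n with
  | zero => exact fun b b' h => ⟨0, b', by simpa using h⟩
  | succ n ih =>
    intro b b' h
    obtain ⟨c, r, hb⟩ := hsurj b'
    obtain ⟨c', hc'⟩ := (hc.pow (n + 1)).exists_left_inv
    obtain ⟨w, hw⟩ : s ∣ v ^ (n + 1) - φ c₀ ^ (n + 1) :=
      (Dvd.intro r₀ (by rw [hv]; ring)).trans (sub_dvd_pow_sub_pow _ _ _)
    have e1 : b' - φ (c * c') * v ^ (n + 1) = s * (r - φ (c * c') * w) := by
      have e2 : φ (c * c') * φ c₀ ^ (n + 1) = φ c := by
        rw [← map_pow, ← map_mul, mul_assoc, hc', mul_one]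
      rw [hb]
      linear_combination (-φ (c * c')) * hw - e2
    have e3 : (b - ρ (φ (c * c')) * u ^ (n + 1)) * ρ s ^ n = ρ (r - φ (c * c') * w) := by
      refine hs.mul_left_cancel ?_
      rw [← map_mul, ← e1, map_sub, ← h, map_mul ρ, map_pow, ← hu]
      ring
    obtain ⟨Q, r', hQ⟩ := ih _ _ e3
    refine ⟨Q + C (c * c') * X ^ n, r', ?_⟩
    rw [eval₂_add, eval₂_mul, eval₂_C, eval₂_pow, eval₂_X, RingHom.comp_apply]
    linear_combination hQ

/-- A polar part that extends over the pole vanishes. -/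
theorem polar_zero (φ : A →+* R) (ρ : R →+* R') {s v r₀ : R} {c₀ : A} {u : R'}
    (hinj : ∀ (c : A) (r : R), φ c = s * r → c = 0) (hc : IsUnit c₀)
    (hv : v = φ c₀ + s * r₀) (hu : u * ρ s = ρ v) (hρ : Function.Injective ρ) {Q : A[X]} {r : R}
    (h : u * Q.eval₂ (ρ.comp φ) u = ρ r) : Q = 0 := by
  set n := Q.natDegree with hn
  have e1 : ρ (∑ i ∈ Finset.range (n + 1), φ (Q.coeff i) * v ^ (i + 1) * s ^ (n - i)) =
      ρ (r * s ^ (n + 1)) := by
    rw [map_mul, ← h, eval₂_eq_sum_range, map_sum, Finset.mul_sum, Finset.sum_mul]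
    refine Finset.sum_congr rfl fun i hi => ?_
    obtain ⟨k, hk⟩ : ∃ k, n = i + k :=
      Nat.exists_eq_add_of_le (Nat.lt_succ_iff.mp (Finset.mem_range.mp hi))
    rw [hk, Nat.add_sub_cancel_left, map_mul, map_mul, map_pow, map_pow, map_pow, ← hu,
      RingHom.comp_apply]
    ring
  have e2 := hρ e1
  rw [Finset.sum_range_succ, Nat.sub_self, pow_zero, mul_one] at e2
  have d1 : s ∣ ∑ i ∈ Finset.range n, φ (Q.coeff i) * v ^ (i + 1) * s ^ (n - i) :=
    Finset.dvd_sum fun i hi => Dvd.dvd.mul_left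
      (dvd_pow_self s (Nat.sub_ne_zero_of_lt (Finset.mem_range.mp hi))) _
  have d2 : s ∣ φ (Q.coeff n) * v ^ (n + 1) := by
    rw [eq_sub_of_add_eq' e2]
    exact (Dvd.dvd.mul_left (dvd_pow_self s n.succ_ne_zero) _).sub d1
  have d3 : s ∣ v ^ (n + 1) - φ c₀ ^ (n + 1) :=
    (Dvd.intro r₀ (by rw [hv]; ring)).trans (sub_dvd_pow_sub_pow _ _ _)
  have d4 : s ∣ φ (Q.coeff n * c₀ ^ (n + 1)) := by
    have := d2.sub (d3.mul_left (φ (Q.coeff n)))
    rw [map_mul, map_pow]
    convert this using 1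
    ring
  obtain ⟨w, hw⟩ := d4
  have e3 := hinj _ _ hw
  rw [(hc.pow _).mul_left_eq_zero] at e3
  exact leadingCoeff_eq_zero.mp e3

theorem map_comb {ι : Type} [Fintype ι] (φ : A →+* R) (ρ : R →+* R') (u : ι → R) (c : A)
    (Q : ι → A[X]) : ρ (comb φ u c Q) = comb (ρ.comp φ) (fun a => ρ (u a)) c Q := by
  simp only [comb, map_add, map_sum, map_mul, hom_eval₂, RingHom.comp_apply]

end Alg

section Par

variable {A : Type} [CommRing A] {C : Scheme.{0}} {p : C ⟶ Spec (.of A)} {x : C} {U : C.Opens}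
  {s : Γ(C, U)}

theorem res_comp_alg {V : C.Opens} (h : V ≤ U) : (res h).comp (alg p U) = alg p V :=
  RingHom.ext fun a => res_alg p h a

theorem par_surj (h : Par p x U s) (b : Γ(C, U)) : ∃ (c : A) (r : Γ(C, U)),
    b = alg p U c + s * r := by
  obtain ⟨c, hc⟩ := h.bij.2 (Ideal.Quotient.mk _ b)
  obtain ⟨r, hr⟩ := Ideal.mem_span_singleton.mp (Ideal.Quotient.eq.mp hc.symm)
  exact ⟨c, r, by rw [← hr]; ring⟩

theorem par_inj (h : Par p x U s) (c : A) (r : Γ(C, U)) (e : alg p U c = s * r) : c = 0 := by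
  refine h.bij.1 ?_
  rw [map_zero, RingHom.comp_apply, Ideal.Quotient.eq_zero_iff_mem, Ideal.mem_span_singleton]
  exact ⟨r, e⟩

theorem par_not_mem (h : Par p x U s) : x ∉ C.basicOpen s := fun hx => ((h.zero x).mp hx).2 rfl

/-- The value at `x` of a function that does not vanish at `x` is a unit. -/
theorem par_unit [IsLocalRing A] [IsArtinianRing A] (h : Par p x U s) {f : Γ(C, U)}
    (hf : x ∈ C.basicOpen f) : ∃ (c : A) (r : Γ(C, U)), IsUnit c ∧ f = alg p U c + s * r := by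
  obtain ⟨c, r, e⟩ := par_surj h f
  refine ⟨c, r, ?_, e⟩
  by_contra hc
  have h1 : x ∉ C.basicOpen (alg p U c) := by
    rw [basicOpen_of_isNilpotent ((isNilpotent_of_not_isUnit hc).map _)]
    exact id
  have h2 : x ∉ C.basicOpen (s * r) := by
    rw [mul_comm]
    exact not_mem_basicOpen_mul _ (par_not_mem h)
  exact not_mem_basicOpen_add h1 h2 (e ▸ hf)

end Par

section Poles

variable {A : Type} [CommRing A] {C : Scheme.{0}} {p : C ⟶ Spec (.of A)} {ι : Type}
  (P : Poles p ι)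

theorem inter_eq (a : ι) : P.U a ⊓ P.O0 = C.basicOpen (P.s a) := by
  ext y
  refine ⟨fun hy => ((P.par a).zero y).mpr ⟨hy.1, (P.hO0 y).mp hy.2 a⟩, fun hy => ?_⟩
  obtain ⟨h1, h2⟩ := ((P.par a).zero y).mp hy
  refine ⟨h1, (P.hO0 y).mpr fun b e => ?_⟩
  by_cases hb : a = b
  · exact h2 (hb ▸ e)
  · exact P.ne a b hb (e ▸ h1)

theorem away_inter (a : ι) : IsAway (res (inf_le_left : P.U a ⊓ P.O0 ≤ _)) (P.s a) :=
  isAway_res (P.par a).aff _ _ (inter_eq P a)

theorem inj_inter (a : ι) : Function.Injective (res (inf_le_left : P.U a ⊓ P.O0 ≤ _)) :=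
  away_inj (away_inter P a) (P.par a).reg

theorem pole_res (a : ι) {W : C.Opens} (h1 : W ≤ P.U a) (h2 : W ≤ P.V a) :
    res h2 (P.u a) * res h1 (P.s a) = res h1 (P.v a) := by
  have := congrArg (res (le_inf h1 h2)) (P.pole a)
  simpa only [map_mul, res_res] using this

theorem mem_cases (y : C) : y ∈ P.O0 ∨ ∃ a, y = P.x a := by
  by_cases h : ∃ a, y = P.x a
  · exact Or.inr h
  · exact Or.inl ((P.hO0 y).mpr fun a e => h ⟨a, e⟩)

theorem UU_le {a b : ι} (h : a ≠ b) : P.U a ⊓ P.U b ≤ P.O0 := fun y hy =>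
  (P.hO0 y).mpr fun c e => by
    by_cases hc : a = c
    · exact P.ne b c (fun e' => h (hc.trans e'.symm)) (e ▸ hy.2)
    · exact P.ne a c hc (e ▸ hy.1)

theorem const_of_ext (hp : Function.Surjective (pb p)) (b : Γ(C, P.O0))
    (h : ∀ a, ∃ b' : Γ(C, P.U a),
      res (inf_le_left : P.U a ⊓ P.O0 ≤ _) b' = res inf_le_right b) : ∃ c, b = alg p _ c := by
  choose b' hb' using h
  have hres : ∀ a {W : C.Opens} (h1 : W ≤ P.U a) (h2 : W ≤ P.O0), res h1 (b' a) = res h2 b :=
    fun a W h1 h2 => by simpa only [res_res] using congrArg (res (le_inf h1 h2)) (hb' a)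
  obtain ⟨g, hg⟩ := exists_glue (V := ⊤)
    (fun o : Option ι => (Option.rec P.O0 P.U o : C.Opens)) (fun _ => le_top)
    (fun y _ => by
      rcases mem_cases P y with hy | ⟨a, rfl⟩
      · exact TopologicalSpace.Opens.mem_iSup.mpr ⟨none, hy⟩
      · exact TopologicalSpace.Opens.mem_iSup.mpr ⟨some a, (P.par a).mem⟩)
    (fun o => Option.rec b b' o) (by
      rintro (_ | a) (_ | a')
      · rfl
      · exact (hres a' _ _).symm
      · exact hres a _ _
      · by_cases e : a = a'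
        · subst e
          rfl
        · exact (hres a _ (UU_le P e)).trans (hres a' _ _).symm)
  obtain ⟨c, rfl⟩ := hp g
  exact ⟨c, (hg none).symm⟩

/-- The other polar parts extend over `U a`. -/
theorem others_ext [Fintype ι] [DecidableEq ι] (a : ι) (Q : ι → A[X]) : ∃ r : Γ(C, P.U a),
    ∑ l ∈ Finset.univ.erase a, res (inf_le_right : P.U a ⊓ P.O0 ≤ _) (P.u0 l) *
      (Q l).eval₂ (alg p _) (res (inf_le_right : P.U a ⊓ P.O0 ≤ _) (P.u0 l)) =
      res inf_le_left r := by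
  suffices h : _ ∈ (res (inf_le_left : P.U a ⊓ P.O0 ≤ _)).range from
    let ⟨r, hr⟩ := h; ⟨r, hr.symm⟩
  refine Subring.sum_mem _ fun l hl => ?_
  have hl' : a ≠ l := (Finset.ne_of_mem_erase hl).symm
  refine ⟨res (P.U_le hl') (P.u l) * (Q l).eval₂ (alg p _) (res (P.U_le hl') (P.u l)), ?_⟩
  rw [map_mul, hom_eval₂, res_comp_alg, Poles.u0, res_res, res_res]

end Poles

theorem spanP : SSpanP := by
  intro A _ _ _ C p ι _ _ P hp
  classical
  have hu : ∀ a, res (inf_le_right : P.U a ⊓ P.O0 ≤ _) (P.u0 a) * res inf_le_left (P.s a) =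
      res inf_le_left (P.v a) := fun a => by
    rw [Poles.u0, res_res]
    exact pole_res P a _ _
  refine ⟨const_of_ext P hp, fun b => ?_, fun c Q h => ?_⟩
  · have h1 : ∀ a, ∃ (Q : A[X]) (r : Γ(C, P.U a)), res (inf_le_right : P.U a ⊓ P.O0 ≤ _) b =
        res inf_le_right (P.u0 a) * Q.eval₂ (alg p _) (res inf_le_right (P.u0 a))
          + res inf_le_left r := fun a => by
      obtain ⟨c₀, r₀, hc, hv⟩ := par_unit (P.par a) (P.unit a)
      obtain ⟨n, b', hb⟩ := away_surj (away_inter P a) (res inf_le_right b)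
      have := remove_pole (alg p _) _ (par_surj (P.par a)) hc hv (hu a)
        (away_unit (away_inter P a)) n _ _ hb
      rwa [res_comp_alg] at this
    choose Q r hQ using h1
    obtain ⟨c, hc⟩ := const_of_ext P hp (b - comb (alg p _) P.u0 0 Q) fun a => by
      obtain ⟨r', hr'⟩ := others_ext P a Q
      refine ⟨r a - r', ?_⟩
      rw [map_sub, map_sub, map_comb, res_comp_alg, comb, ← Finset.add_sum_erase _ _
        (Finset.mem_univ a), hr', hQ a, map_zero]
      ring
    refine ⟨c, Q, ?_⟩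
    rw [comb, ← hc, comb, map_zero]
    ring
  · have h1 : ∀ a, Q a = 0 := fun a => by
      obtain ⟨c₀, r₀, hc, hv⟩ := par_unit (P.par a) (P.unit a)
      obtain ⟨r', hr'⟩ := others_ext P a Q
      have e := congrArg (res (inf_le_right : P.U a ⊓ P.O0 ≤ _)) h
      rw [map_comb, res_comp_alg, comb, ← Finset.add_sum_erase _ _ (Finset.mem_univ a), hr',
        map_zero] at e
      refine polar_zero (alg p _) _ (par_inj (P.par a)) hc hv (hu a) (inj_inter P a)
        (r := -alg p _ c - r') ?_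
      rw [res_comp_alg, map_sub, map_neg, res_alg]
      linear_combination e
    refine ⟨?_, funext h1⟩
    obtain ⟨a⟩ := ‹Nonempty ι›
    simp only [comb, h1, eval₂_zero, mul_zero, Finset.sum_const_zero, add_zero] at h
    refine par_inj (P.par a) c 0 (inj_inter P a ?_)
    rw [mul_zero, map_zero, res_alg, ← res_alg p (inf_le_right : P.U a ⊓ P.O0 ≤ _), h, map_zero]

end Pool.Agent.MP_52bf41_ag.H65
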